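import Pool.Agent.Helper79.SA.Goals

open MeasureTheory Filter Topology Set

noncomputable section

namespace SA.PkEH

open Pool.Agent.Helper97.Ku

variable {K : Type}

theorem rg_ne (p : Cnd K) : p.rg.Nonempty := ⟨_, fun _ _ => false, rfl⟩

theorem mem_ee {B : Set (K → Rl)} {p : Cnd K} :
    p ∈ ee B ↔ ∀ q, q ≤ p → ∃ r, r ≤ q ∧ r.rg ⊆ B := Iff.rfl

theorem e1 {c : Cnd K} {B : Set (K → Rl)} (h : c.rg ⊆ B) : c ∈ ee B :=
  mem_ee.2 fun q hq => ⟨q, le_rfl, (Cnd.rg_mono hq).trans h⟩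

theorem e2 {c : Cnd K} {B : Set (K → Rl)} (h : c ∈ ee B) : ∃ c', c' ≤ c ∧ c'.rg ⊆ B :=
  mem_ee.1 h c le_rfl

theorem e3 {c : Cnd K} {B : Set (K → Rl)} (h : c.rg ⊆ Bᶜ) : c ∈ (ee B)ᶜ := by
  rw [RO.mem_compl]
  intro q hq hqB
  obtain ⟨r, hr, hrB⟩ := e2 hqB
  obtain ⟨z, hz⟩ := rg_ne r
  exact h (Cnd.rg_mono (hr.trans hq) hz) (hrB hz)

theorem mono {B C : Set (K → Rl)} (h : B ⊆ C) : (ee B : RO (Cnd K)) ≤ ee C := by
  intro p hp
  refine mem_ee.2 fun q hq => ?_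
  obtain ⟨r, hr, hrB⟩ := mem_ee.1 hp q hq
  exact ⟨r, hr, hrB.trans h⟩

theorem e4 {c : Cnd K} {B C : Set (K → Rl)} (h : ∀ z ∈ c.rg, (z ∈ B ↔ z ∈ C)) :
    c ∈ NU.iffV (ee B) (ee C) := by
  have key : ∀ {B C : Set (K → Rl)}, (∀ z ∈ c.rg, (z ∈ B → z ∈ C)) → c ∈ ee B ⇨ ee C := by
    intro B C h
    rw [RO.mem_himp]
    intro q hq hqB
    refine mem_ee.2 fun q' hq' => ?_
    obtain ⟨r, hr, hrB⟩ := mem_ee.1 hqB q' hq'
    exact ⟨r, hr, fun z hz => h z (Cnd.rg_mono (hr.trans (hq'.trans hq)) hz) (hrB hz)⟩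
  unfold NU.iffV
  rw [RO.mem_inf]
  exact ⟨key fun z hz => (h z hz).1, key fun z hz => (h z hz).2⟩

theorem e7 (B C : Set (K → Rl)) : (ee (B ∩ C) : RO (Cnd K)) = ee B ⊓ ee C := by
  apply le_antisymm
  · exact le_inf (mono inter_subset_left) (mono inter_subset_right)
  · intro p hp
    rw [RO.mem_inf] at hp
    refine mem_ee.2 fun q hq => ?_
    obtain ⟨r, hr, hrB⟩ := mem_ee.1 hp.1 q hq
    obtain ⟨s, hs, hsC⟩ := mem_ee.1 hp.2 r (hr.trans hq)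
    exact ⟨s, hs.trans hr, subset_inter ((Cnd.rg_mono hs).trans hrB) hsC⟩

theorem e8 (dec : G_DEC) [Nonempty K] {B : Set (K → Rl)} (hB : MeasurableSet B) :
    (ee Bᶜ : RO (Cnd K)) = (ee B)ᶜ := by
  apply le_antisymm
  · intro p hp
    rw [RO.mem_compl]
    intro q hq hqB
    obtain ⟨r, hr, hrB⟩ := e2 hqB
    obtain ⟨s, hs, hsB⟩ := mem_ee.1 hp r (hr.trans hq)
    obtain ⟨z, hz⟩ := rg_ne s
    exact hsB hz (hrB (Cnd.rg_mono hs hz))
  · intro p hp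
    rw [RO.mem_compl] at hp
    refine mem_ee.2 fun q hq => ?_
    obtain ⟨r, hr, h | h⟩ := dec K B hB q
    · exact absurd (e1 h) (hp r (hr.trans hq))
    · exact ⟨r, hr, h⟩

theorem e9 (fup : G_FUP) (pcs : G_PCS) [Nonempty K] (ι : Type) [Countable ι]
    (B : ι → Set (K → Rl)) : (ee (⋂ i, B i) : RO (Cnd K)) = ⨅ i, ee (B i) := by
  apply le_antisymm
  · exact le_iInf fun i => mono (iInter_subset _ i)
  · intro p hp
    rw [RO.mem_iInf] at hp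
    rcases isEmpty_or_nonempty ι with hι | hι
    · exact e1 (by simp)
    obtain ⟨e, he⟩ := exists_surjective_nat ι
    refine mem_ee.2 fun q hq => ?_
    obtain ⟨q', hq', F, k, h⟩ := fup K q (fun n => {r | r.rg ⊆ B (e n)})
      (fun n r hr => by
        obtain ⟨r', hr', h'⟩ := mem_ee.1 (hp (e n)) r (hr.trans hq)
        exact ⟨r', hr', h'⟩)
      (fun n r r' hr hr' => (Cnd.rg_mono hr').trans hr)
    refine ⟨q', hq', subset_iInter fun i => ?_⟩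
    obtain ⟨n, rfl⟩ := he i
    rw [(pcs K q' (F n) (k n)).2.1]
    exact iUnion_subset fun s => h n s

theorem eh (dec : G_DEC) (fup : G_FUP) (pcs : G_PCS) : G_EH := by
  intro K _
  refine ⟨fun c B h => e1 h, fun c B h => e2 h, fun c B h => e3 h, fun c B C h => e4 h, ?_, ?_,
    e7, fun B hB => e8 dec hB, fun ι _ B => e9 fup pcs ι B, fun ι _ B hB => ?_⟩
  · rw [eq_top_iff]
    exact fun p _ => e1 (subset_univ _)
  · rw [eq_bot_iff]
    intro p hp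
    obtain ⟨r, hr, h⟩ := e2 hp
    obtain ⟨z, hz⟩ := rg_ne r
    exact absurd (h hz) (notMem_empty z)
  · have h1 : ((⋃ i, B i) : Set (K → Rl)) = (⋂ i, (B i)ᶜ)ᶜ := by
      rw [compl_iInter]
      simp
    rw [h1, e8 dec (MeasurableSet.iInter fun i => (hB i).compl), e9 fup pcs, compl_iInf]
    congr 1
    funext i
    rw [e8 dec (hB i), compl_compl]

end SA.PkEH
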